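import Mathlib
import Pool.Agent.Q177.Osc.Limit

/-!
# Sharp velocity bounds for damped linear oscillators: `M_d = L_d = 1 + √d`

The definitions (`IsSolution`, `essLimsup`, `VelocityBound`, `velConst`, `supConst`, `limConst`)
are in `Pool.Agent.Q177.Osc.Defs`.
-/

namespace Pool.Agent.Results.MP_38ba9c_an.SharpConstants

open Filter Set Real Pool.Agent.Q177.Osc
open scoped Topology

variable {d : ℕ}

lemma bddBelow_set (A : Matrix (Fin d) (Fin d) ℝ) (c : ℝ) :
    BddBelow {K : ℝ | 0 ≤ K ∧ VelocityBound A c K} := ⟨0, fun _ h => h.1⟩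

/-- upper bound for the optimal constant -/
lemma velConst_le {A : Matrix (Fin d) (Fin d) ℝ} (hA : A.PosDef) {c : ℝ} (hc : 0 < c) :
    c * velConst A c ≤ 1 + √d := by
  have h1 : velConst A c ≤ (1 + √d) / c :=
    csInf_le (bddBelow_set A c) ⟨by positivity, velocityBound_upper hA hc⟩
  calc c * velConst A c ≤ c * ((1 + √d) / c) := mul_le_mul_of_nonneg_left h1 hc.le
    _ = 1 + √d := by field_simp

lemma velConst_nonneg (A : Matrix (Fin d) (Fin d) ℝ) (c : ℝ) : 0 ≤ velConst A c :=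
  Real.sInf_nonneg fun _ h => h.1

/-- lower bound for the optimal constant of the test matrices -/
lemma velConst_ge (hd : 1 ≤ d) {δ : ℝ} (hδ : 0 < δ) (hδ1 : δ < 1) :
    ∃ η N₀ : ℝ, 0 < η ∧ η < 1 ∧ 4 < N₀ ∧ ∀ N, N₀ ≤ N → ∀ c, 0 < c →
      1 + √d - δ ≤ c * velConst (testMat d η N c) c := by
  obtain ⟨η, N₀, hη, hη1, hN₀, h⟩ := lower_bound hd hδ hδ1
  refine ⟨η, N₀, hη, hη1, hN₀, fun N hN c hc => ?_⟩
  have hN0 : 0 < N := by linarith
  have h1 : (1 + √d - δ) / c ≤ velConst (testMat d η N c) c := by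
    refine le_csInf ⟨(1 + √d) / c, by positivity,
      velocityBound_upper (testMat_posDef hη hN0 hc) hc⟩ ?_
    rintro K ⟨hK0, hK⟩
    rw [div_le_iff₀ hc, mul_comm]
    exact h N hN c hc K hK0 hK
  rw [div_le_iff₀ hc, mul_comm] at h1
  exact h1

/-- the fixed matrix for the limit `c → ∞` -/
lemma testMat_sq {η c : ℝ} (hc : 0 < c) :
    testMat d η (c ^ 2) c = testMat d η 1 1 := by
  unfold testMat
  congr 1
  funext k
  field_simp

theorem supConst_eq (hd : 1 ≤ d) {c : ℝ} (hc : 0 < c) : supConst d c = 1 + √d := by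
  have hle : ∀ x ∈ {x : ℝ | ∃ A : Matrix (Fin d) (Fin d) ℝ, A.PosDef ∧ x = c * velConst A c},
      x ≤ 1 + √d := by
    rintro x ⟨A, hA, rfl⟩
    exact velConst_le hA hc
  have hne : {x : ℝ | ∃ A : Matrix (Fin d) (Fin d) ℝ, A.PosDef ∧
      x = c * velConst A c}.Nonempty :=
    ⟨_, testMat d (1 / 2) 1 c, testMat_posDef (by norm_num) one_pos hc, rfl⟩
  refine le_antisymm (csSup_le hne hle) ?_
  refine le_of_forall_pos_lt_add fun ε hε => ?_
  obtain ⟨η, N₀, hη, hη1, hN₀, h⟩ := velConst_ge hd (δ := min (ε / 2) (1 / 2))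
    (by positivity) (lt_of_le_of_lt (min_le_right _ _) (by norm_num))
  have h1 := h N₀ le_rfl c hc
  have h2 : c * velConst (testMat d η N₀ c) c ≤ supConst d c :=
    le_csSup ⟨_, hle⟩ ⟨_, testMat_posDef hη (by linarith) hc, rfl⟩
  have h3 := min_le_left (ε / 2) (1 / 2 : ℝ)
  linarith

theorem limConst_eq (hd : 1 ≤ d) : limConst d = 1 + √d := by
  have hbd : ∀ A : Matrix (Fin d) (Fin d) ℝ, A.PosDef →
      liminf (fun c : ℝ => c * velConst A c) atTop ≤ 1 + √d := by
    intro A hA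
    refine liminf_le_of_le ⟨0, ?_⟩ fun b hb => ?_
    · rw [eventually_map]
      filter_upwards [eventually_gt_atTop (0 : ℝ)] with c hc
      exact mul_nonneg hc.le (velConst_nonneg A c)
    · obtain ⟨c, hc1, hc2⟩ := (hb.and (eventually_gt_atTop (0 : ℝ))).exists
      exact hc1.trans (velConst_le hA hc2)
  have hle : ∀ x ∈ {x : ℝ | ∃ A : Matrix (Fin d) (Fin d) ℝ, A.PosDef ∧
      x = liminf (fun c : ℝ => c * velConst A c) atTop}, x ≤ 1 + √d := by
    rintro x ⟨A, hA, rfl⟩
    exact hbd A hA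
  have hne : {x : ℝ | ∃ A : Matrix (Fin d) (Fin d) ℝ, A.PosDef ∧
      x = liminf (fun c : ℝ => c * velConst A c) atTop}.Nonempty :=
    ⟨_, testMat d (1 / 2) 1 1, testMat_posDef (by norm_num) one_pos one_pos, rfl⟩
  refine le_antisymm (csSup_le hne hle) ?_
  refine le_of_forall_pos_lt_add fun ε hε => ?_
  obtain ⟨η, N₀, hη, hη1, hN₀, h⟩ := velConst_ge hd (δ := min (ε / 2) (1 / 2))
    (by positivity) (lt_of_le_of_lt (min_le_right _ _) (by norm_num))
  have hev : ∀ᶠ c : ℝ in atTop, 1 + √d - min (ε / 2) (1 / 2)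
      ≤ c * velConst (testMat d η 1 1) c := by
    filter_upwards [eventually_ge_atTop N₀] with c hc
    have hc1 : 1 ≤ c := by linarith
    have hc0 : 0 < c := by linarith
    have h1 := h (c ^ 2) (by nlinarith) c hc0
    rwa [testMat_sq hc0] at h1
  have h1 : 1 + √d - min (ε / 2) (1 / 2)
      ≤ liminf (fun c : ℝ => c * velConst (testMat d η 1 1) c) atTop := by
    refine le_liminf_of_le ?_ hev
    have hpd : (testMat d η 1 1).PosDef := testMat_posDef hη one_pos one_pos
    refine IsCoboundedUnder.of_frequently_le (a := 1 + √d) ?_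
    refine Eventually.frequently ?_
    filter_upwards [eventually_gt_atTop (0 : ℝ)] with c hc
    exact velConst_le hpd hc
  have h2 : liminf (fun c : ℝ => c * velConst (testMat d η 1 1) c) atTop ≤ limConst d :=
    le_csSup ⟨_, hle⟩ ⟨_, testMat_posDef hη one_pos one_pos, rfl⟩
  have h3 := min_le_left (ε / 2) (1 / 2 : ℝ)
  linarith

/-- **Sharp velocity bounds.**  For every dimension `d ≥ 1`, `M_d = 1 + √d` (for each damping
`c > 0`) and `L_d = 1 + √d`. -/
theorem result : ∀ d : ℕ, 1 ≤ d →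
    (∀ c : ℝ, 0 < c → supConst d c = 1 + √d) ∧ limConst d = 1 + √d :=
  fun _ hd => ⟨fun _ hc => supConst_eq hd hc, limConst_eq hd⟩

end Pool.Agent.Results.MP_38ba9c_an.SharpConstants
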